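import Pool.Agent.H75.SH.Stm

set_option autoImplicit false

open Finset Filter

namespace Pool.Agent.H9.SH

open Pool.Agent.H75.SH
open Pool.Agent.H378R2 (EPhi)

theorem fw_le (hTF : S_TF) {J : ℕ} {η : ℝ} (hJ : 1 ≤ J) (hη : 0 < η) (hη2 : η ≤ 1 / 2) {N : ℝ}
    (hN : 0 < N) {n : ℕ} (hn : 1 ≤ n) :
    fw J η (N * Real.exp (-η)) n ≤
      (if Real.exp (-η - J / 2) * N < (n : ℝ) ∧ (n : ℝ) ≤ N then (1 : ℝ) else 0) := by
  have hn0 : (0 : ℝ) < n := by exact_mod_cast hn
  set x := N * Real.exp (-η) with hx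
  have hx0 : 0 < x := by positivity
  obtain ⟨h1, -, -, h4, h5, -, -⟩ := hTF J η (Real.log (x / n)) hJ hη hη2
  unfold fw
  split_ifs with h
  · rw [div_le_one hη]; exact h1
  · rw [not_and_or, not_lt, not_le] at h
    rcases h with h | h
    · have hu : (J : ℝ) / 2 ≤ Real.log (x / n) := by
        rw [Real.le_log_iff_exp_le (by positivity), le_div_iff₀ hn0]
        calc Real.exp (J / 2) * n ≤ Real.exp (J / 2) * (Real.exp (-η - J / 2) * N) := by gcongr
          _ = x := by
            rw [hx, ← mul_assoc, ← Real.exp_add, mul_comm]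
            congr 2
            ring
      exact div_nonpos_of_nonpos_of_nonneg (h4 hu) hη.le
    · have hu : Real.log (x / n) + η ≤ 0 := by
        have h6 : Real.log (x / n) + η = Real.log (N / n) := by
          rw [Real.log_div hx0.ne' hn0.ne', Real.log_div hN.ne' hn0.ne', hx,
            Real.log_mul hN.ne' (Real.exp_pos _).ne', Real.log_exp]
          ring
        rw [h6]
        exact Real.log_nonpos (by positivity) (by rw [div_le_one hn0]; exact h.le)
      rw [h5 hu, zero_div]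

theorem t_LB (hSC : S_SC) (hTOT : S_TOT) (hTF : S_TF) (hFS : S_FS) : S_LB := by
  classical
  intro ε hε
  set e := min (ε / 8) (1 / 8) with he
  have he0 : 0 < e := lt_min (by positivity) (by norm_num)
  have he1 : e ≤ ε / 8 := min_le_left _ _
  have he2 : e ≤ 1 / 8 := min_le_right _ _
  obtain ⟨J, η, hJ, hη, hη2, hexp, hexpJ, x₀, hx₀⟩ := hTOT e he0
  have hδ0 : 0 < Real.exp (-η - J / 2) := Real.exp_pos _
  have hδe : Real.exp (-η - J / 2) ≤ ε := by
    have : Real.exp (-η - J / 2) ≤ Real.exp (-(J : ℝ) / 2) :=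
      Real.exp_le_exp.mpr (by linarith)
    linarith
  refine ⟨_, hδ0, hδe, fun Z => ?_⟩
  set lam : ℕ → ℝ := fun i => if i < J then Real.exp (-(((i + 1 : ℕ) : ℝ) + 1) / 2)
    else Real.exp (-η) * Real.exp (-(((i - J + 1 : ℕ) : ℝ) + 1) / 2) with hlam
  have hlam0 : ∀ i, 0 < lam i := by
    intro i
    simp only [hlam]
    split_ifs <;> positivity
  obtain ⟨N₁, hN₁⟩ := hSC (2 * J) lam hlam0 2 Z ε hε
  have E1 : ∀ᶠ N : ℕ in atTop, x₀ ≤ (N : ℝ) * Real.exp (-η) :=
    (tendsto_natCast_atTop_atTop.atTop_mul_const (Real.exp_pos _)).eventually_ge_atTop x₀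
  have E2 : ∀ᶠ N : ℕ in atTop, 2 * (J : ℝ) ^ 2 / (η * e) ≤ Real.log N ^ 2 :=
    ((tendsto_pow_atTop (two_ne_zero)).comp
      (Real.tendsto_log_atTop.comp tendsto_natCast_atTop_atTop)).eventually_ge_atTop _
  obtain ⟨N₀, hN₀⟩ := eventually_atTop.mp
    ((E1.and E2).and ((eventually_ge_atTop N₁).and (eventually_ge_atTop 3)))
  refine ⟨N₀, fun N hN => ?_⟩
  obtain ⟨⟨hE1, hE2⟩, hNN₁, hN3⟩ := hN₀ N hN
  obtain ⟨P, hGP, hE⟩ := hN₁ N hNN₁
  refine ⟨P, hGP, fun a ha => ?_⟩
  set W := ∏ p ∈ P, p with hW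
  have hW0 : 0 < W := Finset.prod_pos (fun p hp => (hGP.prime p hp).pos)
  have hφ : (0 : ℝ) < Nat.totient W := by exact_mod_cast Nat.totient_pos.mpr hW0
  have hNr : (0 : ℝ) < N := by exact_mod_cast (by omega : 0 < N)
  have hL : 0 < Real.log N := Real.log_pos (by exact_mod_cast (by omega : 1 < N))
  set x : ℝ := N * Real.exp (-η) with hx
  have hx0 : 0 < x := by positivity
  set Bd : ℝ := N / (Nat.totient W * Real.log N ^ 2) with hBd
  have hBd0 : 0 ≤ Bd := by positivity
  have hF := hFS J η x W a hη hη2 hx0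
  -- the errors
  have h1 : ∀ j ∈ Icc 1 J, |EPhi (x * (Real.exp η * Real.exp (-((j : ℝ) + 1) / 2))) W a| ≤ Bd := by
    intro j hj
    rw [Finset.mem_Icc] at hj
    have h2 := hE (j - 1) (by omega) a ha
    have h3 : x * (Real.exp η * Real.exp (-((j : ℝ) + 1) / 2)) = lam (j - 1) * N := by
      simp only [hlam]
      rw [if_pos (by omega), show j - 1 + 1 = j by omega, hx]
      have : Real.exp (-η) * Real.exp η = 1 := by rw [← Real.exp_add]; simp
      calc (N : ℝ) * Real.exp (-η) * (Real.exp η * Real.exp (-((j : ℝ) + 1) / 2))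
          = (Real.exp (-η) * Real.exp η) * (Real.exp (-((j : ℝ) + 1) / 2) * N) := by ring
        _ = _ := by rw [this, one_mul]
    rw [h3]
    exact h2
  have h2 : ∀ j ∈ Icc 1 J, |EPhi (x * Real.exp (-((j : ℝ) + 1) / 2)) W a| ≤ Bd := by
    intro j hj
    rw [Finset.mem_Icc] at hj
    have h2 := hE (J + (j - 1)) (by omega) a ha
    have h3 : x * Real.exp (-((j : ℝ) + 1) / 2) = lam (J + (j - 1)) * N := by
      simp only [hlam]
      rw [if_neg (by omega), show J + (j - 1) - J + 1 = j by omega, hx]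
      ring
    rw [h3]
    exact h2
  have h3 : |∑ j ∈ Icc 1 J, (j : ℝ) * (EPhi (x * (Real.exp η * Real.exp (-((j : ℝ) + 1) / 2))) W a -
      EPhi (x * Real.exp (-((j : ℝ) + 1) / 2)) W a)| ≤ 2 * (J : ℝ) ^ 2 * Bd := by
    refine (Finset.abs_sum_le_sum_abs _ _).trans ?_
    have h4 : ∀ j ∈ Icc 1 J, |(j : ℝ) * (EPhi (x * (Real.exp η * Real.exp (-((j : ℝ) + 1) / 2))) W a -
      EPhi (x * Real.exp (-((j : ℝ) + 1) / 2)) W a)| ≤ (J : ℝ) * (2 * Bd) := by
      intro j hj
      have hjJ : (j : ℝ) ≤ J := by exact_mod_cast (Finset.mem_Icc.mp hj).2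
      rw [abs_mul, abs_of_nonneg (Nat.cast_nonneg j)]
      refine mul_le_mul hjJ ?_ (abs_nonneg _) (Nat.cast_nonneg J)
      refine (abs_sub _ _).trans ?_
      linarith [h1 j hj, h2 j hj]
    refine (Finset.sum_le_sum h4).trans (le_of_eq ?_)
    rw [Finset.sum_const, Nat.card_Icc, nsmul_eq_mul, Nat.add_sub_cancel]
    ring
  have h4 : 2 * (J : ℝ) ^ 2 * Bd / η ≤ e * (N / Nat.totient W) := by
    rw [div_le_iff₀ (by positivity)] at hE2
    rw [div_le_iff₀ hη, hBd]
    have h5 : 2 * (J : ℝ) ^ 2 * (N / (Nat.totient W * Real.log N ^ 2)) =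
        (2 * (J : ℝ) ^ 2) / Real.log N ^ 2 * (N / Nat.totient W) := by
      field_simp
    rw [h5]
    have h6 : (2 * (J : ℝ) ^ 2) / Real.log N ^ 2 ≤ e * η := by
      rw [div_le_iff₀ (by positivity)]
      linarith
    calc (2 * (J : ℝ) ^ 2) / Real.log N ^ 2 * (N / Nat.totient W)
        ≤ e * η * (N / Nat.totient W) := by gcongr
      _ = e * (N / Nat.totient W) * η := by ring
  have h5 : -(e * (N / Nat.totient W)) ≤
      (∑ j ∈ Icc 1 J, (j : ℝ) * (EPhi (x * (Real.exp η * Real.exp (-((j : ℝ) + 1) / 2))) W a -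
      EPhi (x * Real.exp (-((j : ℝ) + 1) / 2)) W a)) / η := by
    have h6 : -(2 * (J : ℝ) ^ 2 * Bd / η) ≤
      (∑ j ∈ Icc 1 J, (j : ℝ) * (EPhi (x * (Real.exp η * Real.exp (-((j : ℝ) + 1) / 2))) W a -
      EPhi (x * Real.exp (-((j : ℝ) + 1) / 2)) W a)) / η := by
      rw [← neg_div]
      exact div_le_div_of_nonneg_right (abs_le.mp h3).1 hη.le
    linarith
  -- the main term
  have h6 : (1 - 2 * e) * (N / Nat.totient W) ≤
      (1 / (Nat.totient W : ℝ)) *
        ∑ n ∈ Icc 1 ⌊3 * x⌋₊, fw J η x n * ArithmeticFunction.vonMangoldt n := by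
    have h7 := hx₀ x hE1
    have h8 : (1 - e) * N ≤ x := by
      have h9 : Real.exp (-η) * Real.exp η = 1 := by rw [← Real.exp_add]; simp
      have h10 : 1 - e ≤ Real.exp (-η) := by
        have h11 : 0 < Real.exp (-η) := Real.exp_pos _
        have h12 : Real.exp (-η) * Real.exp η ≤ Real.exp (-η) * (1 + e) := by gcongr
        have h13 : Real.exp (-η) ≤ 1 := Real.exp_le_one_iff.mpr (by linarith)
        nlinarith
      rw [hx, mul_comm]
      gcongr
    have h9 : (1 - 2 * e) * N ≤ (1 - e) * x := by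
      have h10 : (1 - e) * ((1 - e) * N) ≤ (1 - e) * x := by
        apply mul_le_mul_of_nonneg_left h8
        linarith
      nlinarith [mul_nonneg (mul_nonneg he0.le he0.le) hNr.le]
    calc (1 - 2 * e) * (N / Nat.totient W) = (1 / (Nat.totient W : ℝ)) * ((1 - 2 * e) * N) := by
          field_simp
      _ ≤ _ := by
          apply mul_le_mul_of_nonneg_left _ (by positivity)
          linarith
  -- the upper bound by the prime powers
  have h7 : ∑ n ∈ (Icc 1 ⌊3 * x⌋₊).filter (fun n => n ≡ a [MOD W]),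
      fw J η x n * ArithmeticFunction.vonMangoldt n ≤
      ∑ n ∈ (Icc 1 N).filter (fun n : ℕ => Real.exp (-η - J / 2) * N < (n : ℝ) ∧ n ≡ a [MOD W]),
        ArithmeticFunction.vonMangoldt n := by
    have h8 : ∀ n ∈ (Icc 1 ⌊3 * x⌋₊).filter (fun n => n ≡ a [MOD W]),
        fw J η x n * ArithmeticFunction.vonMangoldt n ≤
        (if Real.exp (-η - J / 2) * N < (n : ℝ) ∧ (n : ℝ) ≤ N then
          ArithmeticFunction.vonMangoldt n else 0) := by
      intro n hn
      have hn1 := (Finset.mem_Icc.mp (Finset.mem_filter.mp hn).1).1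
      have h9 := fw_le hTF hJ hη hη2 hNr hn1
      have h10 : fw J η x n * ArithmeticFunction.vonMangoldt n ≤
          (if Real.exp (-η - J / 2) * N < (n : ℝ) ∧ (n : ℝ) ≤ N then (1 : ℝ) else 0) *
          ArithmeticFunction.vonMangoldt n :=
        mul_le_mul_of_nonneg_right h9 ArithmeticFunction.vonMangoldt_nonneg
      rw [ite_mul, one_mul, zero_mul] at h10
      exact h10
    refine (Finset.sum_le_sum h8).trans ?_
    rw [← Finset.sum_filter]
    refine Finset.sum_le_sum_of_subset_of_nonneg ?_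
      (fun _ _ _ => ArithmeticFunction.vonMangoldt_nonneg)
    intro n hn
    rw [Finset.mem_filter, Finset.mem_filter, Finset.mem_Icc] at hn
    rw [Finset.mem_filter, Finset.mem_Icc]
    exact ⟨⟨hn.1.1.1, by exact_mod_cast hn.2.2⟩, hn.2.1, hn.1.2⟩
  refine le_trans ?_ h7
  rw [hF]
  have h8 : (1 - ε) * N / Nat.totient W ≤ (1 - 3 * e) * (N / Nat.totient W) := by
    rw [mul_div_assoc]
    apply mul_le_mul_of_nonneg_right _ (by positivity)
    linarith
  have h9 : (1 - 3 * e) * ((N : ℝ) / Nat.totient W) =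
    (1 - 2 * e) * (N / Nat.totient W) - e * (N / Nat.totient W) := by ring
  linarith

end Pool.Agent.H9.SH
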